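import Pool.Agent.W182.KO.Fin2

set_option autoImplicit false

/-!
# Shifted moments of zeta tested against Fourier support off `[2, 2k-2]`
-/

namespace Pool.Agent.Results.MP_069854_nt.EdgeBands

open Complex MeasureTheory Filter Topology
open scoped ContDiff

/-- The normalised shifted moment `Q_k(α,T)` of the problem. -/
noncomputable def Qk (k : ℕ) (α T : ℝ) : ℂ :=
  (T : ℂ)⁻¹ * ((Real.log T : ℂ) ^ (k ^ 2))⁻¹ *
    ∫ t in (0:ℝ)..T, riemannZeta (1 / 2 + I * α / Real.log T + I * t) ^ k *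
      riemannZeta (1 / 2 + I * α / Real.log T - I * t) ^ k

/-- The number `d_k(n)` of ordered factorisations of `n` into `k` positive factors. -/
def dk (k n : ℕ) : ℕ := (Nat.finMulAntidiag k n).card

/-- The Euler factor of the arithmetic constant `a_k` at the prime `p`. -/
noncomputable def eulerFactor (k : ℕ) (p : Nat.Primes) : ℝ :=
  (1 - 1 / (p : ℝ)) ^ (k ^ 2) * ∑' m : ℕ, (dk k ((p : ℕ) ^ m) : ℝ) ^ 2 / (p : ℝ) ^ m

/-- The arithmetic constant `a_k`. -/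
noncomputable def ak (k : ℕ) : ℝ := ∏' p : Nat.Primes, eulerFactor k p

/-- The test function `φ(α) = ∫ ψ(ξ) e^{iξα} dξ`. -/
noncomputable def phi (ψ : ℝ → ℂ) (α : ℝ) : ℂ := ∫ ξ : ℝ, ψ ξ * exp (I * ξ * α)

lemma eulerFactor_eq (k : ℕ) (p : Nat.Primes) : eulerFactor k p =
    (1 - 1 / (p : ℝ)) ^ ((k : ℝ) ^ 2) * ∑' m : ℕ, H306R2.lc k m ^ 2 * (1 / (p : ℝ)) ^ m := by
  unfold eulerFactor
  have h1 : (1 - 1 / ((p : ℕ) : ℝ)) ^ ((k : ℝ) ^ 2) = (1 - 1 / ((p : ℕ) : ℝ)) ^ (k ^ 2) := by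
    rw [← Real.rpow_natCast _ (k ^ 2)]
    push_cast
    rfl
  rw [h1]
  congr 1
  refine tsum_congr fun m => ?_
  have h2 : (dk k ((p : ℕ) ^ m) : ℝ) = H306R2.lc k m := by
    have h3 := W182.KO.dk_eq k ((p : ℕ) ^ m)
    rw [H306R2.dv_prime_pow _ p.2] at h3
    exact h3
  rw [h2, one_div, inv_pow, div_eq_mul_inv]

lemma ak_eq (k : ℕ) : ak k = H306R2.aF k := by
  unfold ak H306R2.aF
  exact tprod_congr fun p => eulerFactor_eq k p

lemma phi_eq (ψ : ℝ → ℂ) (α : ℝ) : phi ψ α = W182.KO.P ψ (α * I) := by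
  unfold phi W182.KO.P
  congr 1; funext ξ
  congr 2
  ring

/-- **Band-limited Kösters asymptotics at both spectral edges**: for every `k ≥ 2` and every test
function whose Fourier support avoids `[2, 2k-2]`. -/
theorem result (k : ℕ) (hk : 2 ≤ k) (ψ : ℝ → ℂ) (hψ : ContDiff ℝ ∞ ψ) (hc : HasCompactSupport ψ)
    (hs : ∀ ξ ∈ Set.Icc (2:ℝ) (2 * k - 2), ξ ∉ tsupport ψ) :
    Multipliable (eulerFactor k) ∧
    (∀ T : ℝ, Real.exp 1 ≤ T → Integrable (fun α : ℝ => phi ψ α * Qk k α T)) ∧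
    Tendsto (fun T : ℝ => ∫ α : ℝ, phi ψ α * Qk k α T) atTop
      (𝓝 (2 * Real.pi * ak k *
        ((∫ x in (0:ℝ)..1, (x : ℂ) ^ (k ^ 2 - 1) / (k ^ 2 - 1).factorial * ψ (2 * x)) +
        ∫ x in (k - 1 : ℝ)..k, ((k : ℂ) - x) ^ (k ^ 2 - 1) / (k ^ 2 - 1).factorial * ψ (2 * x)))) := by
  have hk0 : (0:ℝ) < k := by exact_mod_cast (by omega : 0 < k)
  refine ⟨?_, ?_, ?_⟩
  · refine (H306R2.aF_multipliable hk0).congr fun p => ?_
    exact (eulerFactor_eq k p).symm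
  · intro T hT
    obtain ⟨X, hX0, hX⟩ := W182.KO.exists_TF hψ hc
    simp only [phi_eq]
    exact W182.KO.Qk_integrable hX k hT
  · simp only [phi_eq]
    rw [ak_eq]
    exact W182.KO.both_limit hk hψ hc hs

end Pool.Agent.Results.MP_069854_nt.EdgeBands
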